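import Mathlib

set_option autoImplicit false
open scoped BigOperators

namespace Pool.Agent.Helper40.Simsun

/-- The defining properties of the simsun numbers. -/
structure IsA (a : ℕ → ℕ → ℤ) : Prop where
  h01 : a 0 1 = 1
  h12 : a 1 2 = 1
  h0 : ∀ n : ℕ, 1 < n → a 0 n = 0
  hz : ∀ i n : ℕ, n < 2 * i → a i n = 0
  hrec : ∀ i n : ℕ, 1 ≤ i → 1 ≤ n →
        a i (n + 1) = (i : ℤ) * a i n + ((n : ℤ) - 2 * (i : ℤ) + 2) * a (i - 1) n

theorem nonneg {a : ℕ → ℕ → ℤ} (ha : IsA a) : ∀ m : ℕ, 1 ≤ m → ∀ j, 0 ≤ a j m := by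
  intro m hm
  induction m, hm using Nat.le_induction with
  | base =>
    intro j
    rcases Nat.eq_zero_or_pos j with h | h
    · subst h; rw [ha.h01]; norm_num
    · rw [ha.hz j 1 (by omega)]
  | succ m hm ih =>
    intro j
    rcases Nat.eq_zero_or_pos j with h | h
    · subst h; rw [ha.h0 _ (by omega)]
    · by_cases h2 : m + 1 < 2 * j
      · rw [ha.hz j _ h2]
      · rw [ha.hrec j m h hm]
        have h3 : (0 : ℤ) ≤ (m : ℤ) - 2 * (j : ℤ) + 2 := by omega
        have h4 := ih j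
        have h5 := ih (j - 1)
        positivity

/-- Coefficient array of the truncated flow. -/
def W (a : ℕ → ℕ → ℤ) (m d i : ℕ) : ℤ :=
  ∑ j ∈ Finset.range (i + 1), ((m - d - j).choose (i - j) : ℤ) * (j.choose d : ℤ) * a j m

theorem term (Q k j d : ℕ) (hdj : d ≤ j) (hQ : j - d ≤ Q) (hk : 1 ≤ k) (hkQ : k ≤ Q) :
    ((j : ℤ) + k - d) * (Q.choose k : ℤ) * (j.choose d : ℤ) ≤
      2 * (((j : ℤ) + k) * ((Q - 1).choose k : ℤ) * (j.choose (d + 1) : ℤ)
        + ((Q : ℤ) - k + 1) * (Q.choose (k - 1) : ℤ) * (j.choose d : ℤ)) := by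
  obtain ⟨k, rfl⟩ : ∃ k', k = k' + 1 := ⟨k - 1, by omega⟩
  obtain ⟨Q, rfl⟩ : ∃ Q', Q = Q' + 1 := ⟨Q - 1, by omega⟩
  obtain ⟨u, rfl⟩ : ∃ u, j = d + u := ⟨j - d, by omega⟩
  have e1 : ((Q + 1).choose (k + 1) : ℤ) * ((k : ℤ) + 1) = ((Q + 1).choose k : ℤ) * ((Q : ℤ) + 1 - k) := by
    have := Nat.choose_succ_right_eq (Q + 1) k
    have h2 : ((Q + 1 - k : ℕ) : ℤ) = (Q : ℤ) + 1 - k := by
      rw [Nat.cast_sub (by omega)]; push_cast; ring
    rw [← h2]; exact_mod_cast this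
  have e2 : (Q.choose (k + 1) : ℤ) * ((Q : ℤ) + 1) = ((Q + 1).choose (k + 1) : ℤ) * ((Q : ℤ) - k) := by
    have := Nat.choose_mul_succ_eq Q (k + 1)
    have h2 : ((Q + 1 - (k + 1) : ℕ) : ℤ) = (Q : ℤ) - k := by
      rw [Nat.cast_sub (by omega)]; push_cast; ring
    rw [← h2]; exact_mod_cast this
  have e3 : ((d + u).choose (d + 1) : ℤ) * ((d : ℤ) + 1) = ((d + u).choose d : ℤ) * (u : ℤ) := by
    have := Nat.choose_succ_right_eq (d + u) d
    rw [Nat.add_sub_cancel_left] at this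
    exact_mod_cast this
  have c1 : (0 : ℤ) ≤ ((Q + 1).choose (k + 1) : ℤ) := by positivity
  have c2 : (0 : ℤ) ≤ (Q.choose (k + 1) : ℤ) := by positivity
  have c3 : (0 : ℤ) ≤ ((d + u).choose (d + 1) : ℤ) := by positivity
  have c4 : (0 : ℤ) ≤ ((d + u).choose d : ℤ) := by positivity
  simp only [Nat.add_sub_cancel]
  generalize ((Q + 1).choose (k + 1) : ℤ) = A at *
  generalize ((Q + 1).choose k : ℤ) = A' at *
  generalize (Q.choose (k + 1) : ℤ) = B at *
  generalize ((d + u).choose (d + 1) : ℤ) = C at *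
  generalize ((d + u).choose d : ℤ) = D at *
  have hQ' : u ≤ Q + 1 := by omega
  have hQz : (u : ℤ) ≤ (Q : ℤ) + 1 := by exact_mod_cast hQ'
  have hkz : (k : ℤ) ≤ (Q : ℤ) := by exact_mod_cast (by omega : k ≤ Q)
  push_cast
  have key : ((u : ℤ) - (k + 1)) * A * D ≤ 2 * (((d : ℤ) + u + (k + 1)) * B * C) := by
    by_cases hu : u ≤ k + 1
    · have : (u : ℤ) - (k + 1) ≤ 0 := by
        have : (u : ℤ) ≤ k + 1 := by exact_mod_cast hu
        linarith
      have h1 : ((u : ℤ) - (k + 1)) * A * D ≤ 0 := by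
        have := mul_nonneg c1 c4
        nlinarith
      have h2 : 0 ≤ 2 * (((d : ℤ) + u + (k + 1)) * B * C) := by positivity
      linarith
    · have hu' : (k : ℤ) + 2 ≤ u := by exact_mod_cast (by omega : k + 2 ≤ u)
      have hpos : (0 : ℤ) < ((Q : ℤ) + 1) * ((d : ℤ) + 1) := by positivity
      apply le_of_mul_le_mul_right _ hpos
      have r1 : 2 * (((d : ℤ) + u + (k + 1)) * B * C) * (((Q : ℤ) + 1) * ((d : ℤ) + 1))
          = 2 * ((d : ℤ) + u + (k + 1)) * (A * ((Q : ℤ) - k)) * (D * u) := by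
        rw [← e2, ← e3]; ring
      rw [r1]
      have hAD := mul_nonneg c1 c4
      have s1 : ((u : ℤ) - (k + 1)) * ((Q : ℤ) + 1) ≤ u * ((Q : ℤ) - k) := by
        have hk0 : (0 : ℤ) ≤ k := by positivity
        nlinarith
      have s2 : (d : ℤ) + 1 ≤ 2 * ((d : ℤ) + u + (k + 1)) := by
        have hk0 : (0 : ℤ) ≤ k := by positivity
        have hd0 : (0 : ℤ) ≤ d := by positivity
        linarith
      have s3 : (0 : ℤ) ≤ ((u : ℤ) - (k + 1)) * ((Q : ℤ) + 1) := by
        apply mul_nonneg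
        · linarith
        · positivity
      have s4 : ((u : ℤ) - (k + 1)) * ((Q : ℤ) + 1) * ((d : ℤ) + 1)
          ≤ (u * ((Q : ℤ) - k)) * (2 * ((d : ℤ) + u + (k + 1))) := by
        apply mul_le_mul s1 s2 (by positivity)
        apply mul_nonneg (by positivity); linarith
      calc ((u : ℤ) - (k + 1)) * A * D * (((Q : ℤ) + 1) * ((d : ℤ) + 1))
          = (((u : ℤ) - (k + 1)) * ((Q : ℤ) + 1) * ((d : ℤ) + 1)) * (A * D) := by ring
        _ ≤ ((u * ((Q : ℤ) - k)) * (2 * ((d : ℤ) + u + (k + 1)))) * (A * D) :=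
            mul_le_mul_of_nonneg_right s4 hAD
        _ = 2 * ((d : ℤ) + u + (k + 1)) * (A * ((Q : ℤ) - k)) * (D * u) := by ring
  have e1' : ((Q : ℤ) + 1 - (k + 1) + 1) * A' * D = (k + 1) * A * D := by
    have : ((Q : ℤ) + 1 - (k + 1) + 1) * A' = (k + 1) * A := by linarith
    rw [this]
  rw [e1']
  linarith [key]

theorem W_step {a : ℕ → ℕ → ℤ} (ha : IsA a) (m d i : ℕ) (hm : 1 ≤ m) (hdi : d < i) (hid : i + d ≤ m) :
    ((i : ℤ) - d) * W a m d i ≤
      2 * ((i : ℤ) * W a m (d + 1) i + ((m : ℤ) + 1 - d - i) * W a m d (i - 1)) := by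
  obtain ⟨i, rfl⟩ : ∃ i', i = i' + 1 := ⟨i - 1, by omega⟩
  unfold W
  rw [Finset.sum_range_succ, Finset.sum_range_succ (n := i + 1)]
  simp only [Nat.add_sub_cancel, Nat.sub_self, Nat.choose_zero_right, Nat.cast_one, one_mul]
  have hlast : (((i + 1 : ℕ) : ℤ) - d) * (((i + 1).choose d : ℤ) * a (i + 1) m) ≤
      2 * (((i + 1 : ℕ) : ℤ) * (((i + 1).choose (d + 1) : ℤ) * a (i + 1) m)) := by
    have e3 : ((i + 1).choose (d + 1) : ℤ) * ((d : ℤ) + 1) = ((i + 1).choose d : ℤ) * (((i + 1 : ℕ) : ℤ) - d) := by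
      have := Nat.choose_succ_right_eq (i + 1) d
      have h2 : ((i + 1 - d : ℕ) : ℤ) = ((i + 1 : ℕ) : ℤ) - d := by
        rw [Nat.cast_sub (by omega)]
      rw [← h2]; exact_mod_cast this
    have hA := nonneg ha m hm (i + 1)
    have hc : (0 : ℤ) ≤ ((i + 1).choose (d + 1) : ℤ) := by positivity
    have hd : (d : ℤ) + 1 ≤ 2 * ((i + 1 : ℕ) : ℤ) := by push_cast; omega
    calc (((i + 1 : ℕ) : ℤ) - d) * (((i + 1).choose d : ℤ) * a (i + 1) m)
        = (((i + 1).choose d : ℤ) * (((i + 1 : ℕ) : ℤ) - d)) * a (i + 1) m := by ring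
      _ = ((d : ℤ) + 1) * (((i + 1).choose (d + 1) : ℤ) * a (i + 1) m) := by rw [← e3]; ring
      _ ≤ (2 * ((i + 1 : ℕ) : ℤ)) * (((i + 1).choose (d + 1) : ℤ) * a (i + 1) m) :=
          mul_le_mul_of_nonneg_right hd (mul_nonneg hc hA)
      _ = _ := by ring
  have hsum : (((i + 1 : ℕ) : ℤ) - d) * ∑ j ∈ Finset.range (i + 1),
        ((m - d - j).choose (i + 1 - j) : ℤ) * (j.choose d : ℤ) * a j m ≤
      2 * (((i + 1 : ℕ) : ℤ) * ∑ j ∈ Finset.range (i + 1),
        ((m - (d + 1) - j).choose (i + 1 - j) : ℤ) * (j.choose (d + 1) : ℤ) * a j m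
        + ((m : ℤ) + 1 - d - ((i + 1 : ℕ) : ℤ)) * ∑ j ∈ Finset.range (i + 1),
        ((m - d - j).choose (i - j) : ℤ) * (j.choose d : ℤ) * a j m) := by
    rw [Finset.mul_sum, Finset.mul_sum, Finset.mul_sum, ← Finset.sum_add_distrib, Finset.mul_sum]
    apply Finset.sum_le_sum
    intro j hj
    have hj' : j ≤ i := by
      have := Finset.mem_range.mp hj; omega
    by_cases h2j : m < 2 * j
    · rw [ha.hz j m h2j]; simp
    by_cases hdj : j < d
    · rw [Nat.choose_eq_zero_of_lt hdj, Nat.choose_eq_zero_of_lt (show j < d + 1 by omega)]; simp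
    have hT := term (m - d - j) (i + 1 - j) j d (by omega) (by omega) (by omega) (by omega)
    have hA := nonneg ha m hm j
    have hT' := mul_le_mul_of_nonneg_right hT hA
    have q1 : (j : ℤ) + ((i + 1 - j : ℕ) : ℤ) = ((i + 1 : ℕ) : ℤ) := by
      rw [Nat.cast_sub (by omega)]; ring
    have q2 : ((m - d - j : ℕ) : ℤ) - ((i + 1 - j : ℕ) : ℤ) + 1 = (m : ℤ) + 1 - d - ((i + 1 : ℕ) : ℤ) := by
      rw [Nat.cast_sub (show j ≤ i + 1 by omega), Nat.cast_sub (show j ≤ m - d by omega),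
        Nat.cast_sub (show d ≤ m by omega)]; ring
    have q3 : m - (d + 1) - j = m - d - j - 1 := by omega
    have q4 : i + 1 - j - 1 = i - j := by omega
    rw [q1, q2, q4] at hT'
    rw [q3]
    calc (((i + 1 : ℕ) : ℤ) - d) * (((m - d - j).choose (i + 1 - j) : ℤ) * (j.choose d : ℤ) * a j m)
        = (((i + 1 : ℕ) : ℤ) - d) * ((m - d - j).choose (i + 1 - j) : ℤ) * (j.choose d : ℤ) * a j m := by ring
      _ ≤ _ := hT'
      _ = _ := by ring
  linarith [hlast, hsum]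

/-- the coefficient of degree `s` of the flow applied to row `m`. -/
def Phi (a : ℕ → ℕ → ℤ) (m s i : ℕ) : ℤ := if s ≤ i then W a m (i - s) i else 0

theorem W_zero {a : ℕ → ℕ → ℤ} (ha : IsA a) (m d i : ℕ) (h : m < i + d) (hdi : d ≤ i): W a m d i = 0 := by
  unfold W
  apply Finset.sum_eq_zero
  intro j hj
  have hj' : j ≤ i := by
    have := Finset.mem_range.mp hj; omega
  by_cases h2j : m < 2 * j
  · rw [ha.hz j m h2j]; simp
  by_cases hdj : j < d
  · rw [Nat.choose_eq_zero_of_lt hdj]; simp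
  rw [Nat.choose_eq_zero_of_lt (show m - d - j < i - j by omega)]; simp

theorem Phi_step {a : ℕ → ℕ → ℤ} (ha : IsA a) (m s : ℕ) (hm : 1 ≤ m) (c : ℚ) (hc : 0 ≤ c)
    (h : ∀ i, (Phi a m s i : ℚ) ≤ c * a i (m + s)) :
    ∀ i, (Phi a m (s + 1) i : ℚ) ≤ (2 * c / (s + 1)) * a i (m + (s + 1)) := by
  intro i
  have hspos : (0 : ℚ) < (s : ℚ) + 1 := by positivity
  have hAi : (0 : ℚ) ≤ (a i (m + (s + 1)) : ℚ) := by
    exact_mod_cast nonneg ha _ (by omega) i
  by_cases hsi : s + 1 ≤ i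
  swap
  · unfold Phi; rw [if_neg hsi]
    push_cast
    positivity
  by_cases h2 : m < i + (i - (s + 1))
  · unfold Phi; rw [if_pos hsi, W_zero ha _ _ _ h2 (by omega)]
    push_cast
    positivity
  have hW := W_step ha m (i - (s + 1)) i hm (by omega) (by omega)
  have p1 : Phi a m (s + 1) i = W a m (i - (s + 1)) i := by unfold Phi; rw [if_pos hsi]
  have p2 : Phi a m s i = W a m (i - (s + 1) + 1) i := by
    unfold Phi; rw [if_pos (by omega)]; congr 1; omega
  have p3 : Phi a m s (i - 1) = W a m (i - (s + 1)) (i - 1) := by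
    unfold Phi; rw [if_pos (by omega)]; congr 1; omega
  rw [← p1, ← p2, ← p3] at hW
  have q1 : (i : ℤ) - ((i - (s + 1) : ℕ) : ℤ) = (s : ℤ) + 1 := by
    rw [Nat.cast_sub hsi]; push_cast; ring
  have q2 : (m : ℤ) + 1 - ((i - (s + 1) : ℕ) : ℤ) - i = ((m + s : ℕ) : ℤ) - 2 * i + 2 := by
    rw [Nat.cast_sub hsi]; push_cast; ring
  rw [q1, q2] at hW
  have hq : (0 : ℤ) ≤ ((m + s : ℕ) : ℤ) - 2 * i + 2 := by
    push_cast; omega
  have hrec := ha.hrec i (m + s) (by omega) (by omega)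
  have h1 := h i
  have h2' := h (i - 1)
  have hWq : ((s : ℚ) + 1) * (Phi a m (s + 1) i : ℚ) ≤
      2 * ((i : ℚ) * (Phi a m s i : ℚ) + (((m + s : ℕ) : ℚ) - 2 * i + 2) * (Phi a m s (i - 1) : ℚ)) := by
    exact_mod_cast hW
  have hrecq : (a i (m + s + 1) : ℚ) = (i : ℚ) * a i (m + s)
      + (((m + s : ℕ) : ℚ) - 2 * i + 2) * a (i - 1) (m + s) := by
    exact_mod_cast hrec
  have hqq : (0 : ℚ) ≤ ((m + s : ℕ) : ℚ) - 2 * i + 2 := by exact_mod_cast hq
  have hi0 : (0 : ℚ) ≤ (i : ℚ) := by positivity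
  rw [div_mul_eq_mul_div, le_div_iff₀ hspos]
  have e1 : m + (s + 1) = m + s + 1 := by ring
  rw [e1, hrecq]
  have t1 := mul_le_mul_of_nonneg_left h1 hi0
  have t2 := mul_le_mul_of_nonneg_left h2' hqq
  nlinarith [hWq, t1, t2]

theorem rec2 {a : ℕ → ℕ → ℤ} (ha : IsA a) (m i : ℕ) (hm : 1 ≤ m) :
    a (i + 2) (m + 2) = ((i : ℤ) + 2) ^ 2 * a (i + 2) m
      + (((i : ℤ) + 2) * ((m : ℤ) - 2 * i - 2) + ((m : ℤ) - 2 * i - 1) * ((i : ℤ) + 1)) * a (i + 1) m
      + ((m : ℤ) - 2 * i - 1) * ((m : ℤ) - 2 * i) * a i m := by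
  have h1 := ha.hrec (i + 2) (m + 1) (by omega) (by omega)
  have h2 := ha.hrec (i + 2) m (by omega) (by omega)
  have h3 := ha.hrec (i + 1) m (by omega) (by omega)
  have e1 : i + 2 - 1 = i + 1 := by omega
  have e2 : i + 1 - 1 = i := by omega
  rw [e1] at h1 h2
  rw [e2] at h3
  have e3 : m + 1 + 1 = m + 2 := by ring
  rw [e3, h2, h3] at h1
  rw [h1]
  push_cast
  ring

theorem W2 (a : ℕ → ℕ → ℤ) (m i : ℕ) (h : 2 * i + 2 ≤ m) :
    2 * W a m i (i + 2) = ((i : ℤ) + 2) * (i + 1) * a (i + 2) m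
      + 2 * ((m : ℤ) - 2 * i - 1) * (i + 1) * a (i + 1) m
      + ((m : ℤ) - 2 * i) * ((m : ℤ) - 2 * i - 1) * a i m := by
  unfold W
  rw [Finset.sum_range_succ, Finset.sum_range_succ, Finset.sum_range_succ]
  rw [Finset.sum_eq_zero]
  · obtain ⟨p, rfl⟩ : ∃ p, m = 2 * i + 2 + p := ⟨m - (2 * i + 2), by omega⟩
    have e1 : 2 * i + 2 + p - i - i = p + 2 := by omega
    have e2 : 2 * i + 2 + p - i - (i + 1) = p + 1 := by omega
    have e4 : i + 2 - i = 2 := by omega
    have e5 : i + 2 - (i + 1) = 1 := by omega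
    have e6 : i + 2 - (i + 2) = 0 := by omega
    rw [e1, e2, e4, e5, e6]
    have c1 : ((i + 2).choose i : ℤ) * 2 = ((i : ℤ) + 2) * (i + 1) := by
      have h1 : (i + 2).choose i = (i + 2).choose 2 := by
        rw [← Nat.choose_symm (show 2 ≤ i + 2 by omega)]; congr 1
      rw [h1]
      have := Nat.choose_two_right (i + 2)
      have h2 := Nat.triangle_succ (i + 1)
      have h3 : (i + 2).choose 2 * 2 = (i + 2) * (i + 1) := by
        rw [this]
        have : 2 ∣ (i + 2) * (i + 2 - 1) := by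
          have := Nat.even_mul_succ_self (i + 1)
          rw [mul_comm]
          exact this.two_dvd
        rw [Nat.div_mul_cancel this]; rfl
      exact_mod_cast h3
    have c2 : ((p + 2).choose 2 : ℤ) * 2 = ((p : ℤ) + 2) * (p + 1) := by
      have := Nat.choose_two_right (p + 2)
      have h3 : (p + 2).choose 2 * 2 = (p + 2) * (p + 1) := by
        rw [this]
        have : 2 ∣ (p + 2) * (p + 2 - 1) := by
          have := Nat.even_mul_succ_self (p + 1)
          rw [mul_comm]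
          exact this.two_dvd
        rw [Nat.div_mul_cancel this]; rfl
      exact_mod_cast h3
    have c3 : ((i + 1).choose i : ℤ) = (i : ℤ) + 1 := by
      rw [Nat.choose_succ_self_right]; push_cast; ring
    simp only [Nat.choose_one_right, Nat.choose_self, Nat.choose_zero_right]
    rw [c3]
    push_cast
    linear_combination (a (i + 2) (2 * i + 2 + p)) * c1 + (a i (2 * i + 2 + p)) * c2
  · intro j hj
    have := Finset.mem_range.mp hj
    rw [Nat.choose_eq_zero_of_lt this]; simp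

/-- the last-row comparison -/
theorem last_row {a : ℕ → ℕ → ℤ} (ha : IsA a) (i : ℕ) (hi : 1 ≤ i) :
    ((i : ℤ)) * a (i + 1) (2 * i + 2) ≤ a i (2 * i + 2) := by
  have h1 := ha.hrec (i + 1) (2 * i + 1) (by omega) (by omega)
  have h2 := ha.hrec i (2 * i + 1) (by omega) (by omega)
  have h3 := ha.hz (i + 1) (2 * i + 1) (by omega)
  have e1 : i + 1 - 1 = i := by omega
  rw [e1, h3] at h1
  have e2 : 2 * i + 1 + 1 = 2 * i + 2 := by ring
  rw [e2] at h1 h2
  rw [h1, h2]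
  have n1 := nonneg ha (2 * i + 1) (by omega) (i - 1)
  push_cast
  nlinarith

theorem last_row4 {a : ℕ → ℕ → ℤ} (ha : IsA a) :
    a 2 6 * 4 = a 3 6 * 11 := by
  have h1 := ha.hrec 3 5 (by omega) (by omega)
  have h2 := ha.hrec 2 5 (by omega) (by omega)
  have h3 := ha.hz 3 5 (by omega)
  have h4 := ha.hrec 2 4 (by omega) (by omega)
  have h5 := ha.hrec 1 4 (by omega) (by omega)
  have h6 := ha.hrec 2 3 (by omega) (by omega)
  have h7 := ha.hrec 1 3 (by omega) (by omega)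
  have h8 := ha.hz 2 3 (by omega)
  have h9 := ha.h0 4 (by omega)
  have h10 := ha.h0 3 (by omega)
  norm_num at h1 h2 h3 h4 h5 h6 h7 h8 h9 h10
  rw [h1, h2, h3, h4, h5, h6, h7, h8, h9, h10]
  ring

theorem Phi2_nonlast {a : ℕ → ℕ → ℤ} (ha : IsA a) (m i : ℕ) (hm : 4 ≤ m) (h : 2 * i + 2 < m) :
    20 * W a m i (i + 2) ≤ 14 * a (i + 2) (m + 2) := by
  have h2 := W2 a m i (by omega)
  have h3 := rec2 ha m i (by omega)
  have n0 := nonneg ha m (by omega) i
  have n1 := nonneg ha m (by omega) (i + 1)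
  have n2 := nonneg ha m (by omega) (i + 2)
  obtain ⟨p, rfl⟩ : ∃ p, m = 2 * i + 3 + p := ⟨m - (2 * i + 3), by omega⟩
  have : 20 * W a (2 * i + 3 + p) i (i + 2) = 10 * (2 * W a (2 * i + 3 + p) i (i + 2)) := by ring
  rw [this, h2, h3]
  generalize a i (2 * i + 3 + p) = x at *
  generalize a (i + 1) (2 * i + 3 + p) = y at *
  generalize a (i + 2) (2 * i + 3 + p) = z at *
  push_cast
  have m1 : (0 : ℤ) ≤ (i : ℤ) * x := by positivity
  have m2 : (0 : ℤ) ≤ (p : ℤ) * x := by positivity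
  have m3 : (0 : ℤ) ≤ (p : ℤ) * p * x := by positivity
  have m4 : (0 : ℤ) ≤ (i : ℤ) * y := by positivity
  have m5 : (0 : ℤ) ≤ (p : ℤ) * y := by positivity
  have m6 : (0 : ℤ) ≤ (p : ℤ) * i * y := by positivity
  have m7 : (0 : ℤ) ≤ (i : ℤ) * z := by positivity
  have m8 : (0 : ℤ) ≤ (i : ℤ) * i * z := by positivity
  nlinarith

theorem Phi2_last {a : ℕ → ℕ → ℤ} (ha : IsA a) (i : ℕ) (hi : 1 ≤ i) :
    4 * W a (2 * i + 2) i (i + 2) ≤ 3 * a (i + 2) (2 * i + 2 + 2) := by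
  have h2 := W2 a (2 * i + 2) i (by omega)
  have h3 := rec2 ha (2 * i + 2) i (by omega)
  have h4 := last_row ha i hi
  have hz := ha.hz (i + 2) (2 * i + 2) (by omega)
  have n0 := nonneg ha (2 * i + 2) (by omega) i
  have n1 := nonneg ha (2 * i + 2) (by omega) (i + 1)
  have : 4 * W a (2 * i + 2) i (i + 2) = 2 * (2 * W a (2 * i + 2) i (i + 2)) := by ring
  rw [this, h2, h3, hz]
  generalize a i (2 * i + 2) = x at *
  generalize a (i + 1) (2 * i + 2) = y at *
  push_cast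
  have hi' : (1 : ℤ) ≤ (i : ℤ) := by exact_mod_cast hi
  have m1 : y ≤ (i : ℤ) * y := by nlinarith
  nlinarith

theorem Phi2_last' {a : ℕ → ℕ → ℤ} (ha : IsA a) (i : ℕ) (hi : 2 ≤ i) :
    20 * W a (2 * i + 2) i (i + 2) ≤ 14 * a (i + 2) (2 * i + 2 + 2) := by
  have h2 := W2 a (2 * i + 2) i (by omega)
  have h3 := rec2 ha (2 * i + 2) i (by omega)
  have h4 := last_row ha i (by omega)
  have h4' : 3 * ((i : ℤ) + 1) * a (i + 1) (2 * i + 2) ≤ 4 * a i (2 * i + 2) := by
    rcases (show i = 2 ∨ 3 ≤ i by omega) with h | h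
    · subst h
      have := last_row4 ha
      have n1 := nonneg ha 6 (by omega) 3
      norm_num
      linarith
    · have n1 := nonneg ha (2 * i + 2) (by omega) (i + 1)
      have hi' : (3 : ℤ) ≤ (i : ℤ) := by exact_mod_cast h
      nlinarith
  have hz := ha.hz (i + 2) (2 * i + 2) (by omega)
  have n0 := nonneg ha (2 * i + 2) (by omega) i
  have n1 := nonneg ha (2 * i + 2) (by omega) (i + 1)
  have : 20 * W a (2 * i + 2) i (i + 2) = 10 * (2 * W a (2 * i + 2) i (i + 2)) := by ring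
  rw [this, h2, h3, hz]
  generalize a i (2 * i + 2) = x at *
  generalize a (i + 1) (2 * i + 2) = y at *
  push_cast
  nlinarith

theorem Phi2_34 {a : ℕ → ℕ → ℤ} (ha : IsA a) (m : ℕ) (hm : 4 ≤ m) (i : ℕ) :
    (Phi a m 2 i : ℚ) ≤ 3 / 4 * a i (m + 2) := by
  have hAi : (0 : ℚ) ≤ (a i (m + 2) : ℚ) := by
    exact_mod_cast nonneg ha _ (by omega) i
  by_cases h : 2 ≤ i
  swap
  · unfold Phi; rw [if_neg h]; push_cast; positivity
  obtain ⟨i, rfl⟩ : ∃ i', i = i' + 2 := ⟨i - 2, by omega⟩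
  unfold Phi
  rw [if_pos h, Nat.add_sub_cancel]
  rcases lt_trichotomy m (2 * i + 2) with h1 | h1 | h1
  · rw [W_zero ha _ _ _ (by omega) (by omega)]; push_cast; positivity
  · subst h1
    have := Phi2_last ha i (by omega)
    have h2 : (4 : ℚ) * (W a (2 * i + 2) i (i + 2) : ℚ) ≤ 3 * (a (i + 2) (2 * i + 2 + 2) : ℚ) := by
      exact_mod_cast this
    linarith
  · have := Phi2_nonlast ha m i hm h1
    have h2 : (20 : ℚ) * (W a m i (i + 2) : ℚ) ≤ 14 * (a (i + 2) (m + 2) : ℚ) := by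
      exact_mod_cast this
    linarith

theorem Phi2_710 {a : ℕ → ℕ → ℤ} (ha : IsA a) (m : ℕ) (hm : 6 ≤ m) (i : ℕ) :
    (Phi a m 2 i : ℚ) ≤ 7 / 10 * a i (m + 2) := by
  have hAi : (0 : ℚ) ≤ (a i (m + 2) : ℚ) := by
    exact_mod_cast nonneg ha _ (by omega) i
  by_cases h : 2 ≤ i
  swap
  · unfold Phi; rw [if_neg h]; push_cast; positivity
  obtain ⟨i, rfl⟩ : ∃ i', i = i' + 2 := ⟨i - 2, by omega⟩
  unfold Phi
  rw [if_pos h, Nat.add_sub_cancel]
  rcases lt_trichotomy m (2 * i + 2) with h1 | h1 | h1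
  · rw [W_zero ha _ _ _ (by omega) (by omega)]; push_cast; positivity
  · subst h1
    have := Phi2_last' ha i (by omega)
    have h2 : (20 : ℚ) * (W a (2 * i + 2) i (i + 2) : ℚ) ≤ 14 * (a (i + 2) (2 * i + 2 + 2) : ℚ) := by
      exact_mod_cast this
    linarith
  · have := Phi2_nonlast ha m i (by omega) h1
    have h2 : (20 : ℚ) * (W a m i (i + 2) : ℚ) ≤ 14 * (a (i + 2) (m + 2) : ℚ) := by
      exact_mod_cast this
    linarith

theorem Phi_even {a : ℕ → ℕ → ℤ} (ha : IsA a) (m : ℕ) (hm : 4 ≤ m) (r : ℕ) :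
    ∀ i, (Phi a m (2 * (r + 2)) i : ℚ) ≤ (1 / 4 * (1 / 7) ^ r) * a i (m + 2 * (r + 2)) := by
  induction r with
  | zero =>
    have h2 := Phi2_34 ha m hm
    have h3 := Phi_step ha m 2 (by omega) (3 / 4) (by norm_num) h2
    have h4 := Phi_step ha m 3 (by omega) _ (by norm_num) h3
    intro i
    have := h4 i
    norm_num at this ⊢
    exact this
  | succ r ih =>
    have h3 := Phi_step ha m (2 * (r + 2)) (by omega) _ (by positivity) ih
    have h4 := Phi_step ha m (2 * (r + 2) + 1) (by omega) _ (by positivity) h3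
    intro i
    have h5 := h4 i
    have e : 2 * (r + 1 + 2) = 2 * (r + 2) + 1 + 1 := by ring
    rw [e]
    refine le_trans h5 ?_
    have hAi : (0 : ℚ) ≤ (a i (m + (2 * (r + 2) + 1 + 1)) : ℚ) := by
      exact_mod_cast nonneg ha _ (by omega) i
    apply mul_le_mul_of_nonneg_right _ hAi
    rw [div_le_iff₀ (by positivity), mul_div_assoc', div_le_iff₀ (by positivity)]
    push_cast
    have hp : (0 : ℚ) < (1 / 7) ^ r := by positivity
    rw [pow_succ]
    have hr : (0 : ℚ) ≤ (r : ℚ) := by positivity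
    have : (4 : ℚ) * 7 ≤ (2 * ((r : ℚ) + 2) + 1 + 1) * (2 * ((r : ℚ) + 2) + 1) := by nlinarith
    nlinarith [mul_le_mul_of_nonneg_left this hp.le]

theorem geom_bound (R : ℕ) : ∑ r ∈ Finset.range R, (1 / 4 * (1 / 7 : ℚ) ^ r) ≤ 7 / 24 := by
  have : ∑ r ∈ Finset.range R, (1 / 4 * (1 / 7 : ℚ) ^ r) = 7 / 24 * (1 - (1 / 7) ^ R) := by
    induction R with
    | zero => simp
    | succ R ih => rw [Finset.sum_range_succ, ih, pow_succ]; ring
  rw [this]
  have hp : (0 : ℚ) < (1 / 7) ^ R := by positivity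
  linarith

/-- The main comparison. -/
theorem main_bound {a : ℕ → ℕ → ℤ} (ha : IsA a) (n i : ℕ) (hn : 3 ≤ n) (hi : 2 ≤ i) (hin : i ≤ n) :
    ∑ r ∈ Finset.Icc 1 (i / 2), Phi a (2 * n - 2 * r) (2 * r) i ≤ a i (2 * n) := by
  have hA : (0 : ℚ) ≤ (a i (2 * n) : ℚ) := by exact_mod_cast nonneg ha _ (by omega) i
  have hQ : (∑ r ∈ Finset.Icc 1 (i / 2), (Phi a (2 * n - 2 * r) (2 * r) i : ℚ)) ≤ a i (2 * n) := by
    have hsplit : Finset.Icc 1 (i / 2) = insert 1 (Finset.Icc 2 (i / 2)) := by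
      ext x; simp only [Finset.mem_Icc, Finset.mem_insert]; omega
    rw [hsplit, Finset.sum_insert (by simp)]
    have hrest : (∑ r ∈ Finset.Icc 2 (i / 2), (Phi a (2 * n - 2 * r) (2 * r) i : ℚ)) ≤
        (∑ r ∈ Finset.range (i / 2 - 1), (1 / 4 * (1 / 7 : ℚ) ^ r)) * a i (2 * n) := by
      have himg : Finset.Icc 2 (i / 2) = (Finset.range (i / 2 - 1)).image (fun r => r + 2) := by
        ext x; simp only [Finset.mem_Icc, Finset.mem_image, Finset.mem_range]
        constructor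
        · intro h; exact ⟨x - 2, by omega, by omega⟩
        · rintro ⟨y, hy, rfl⟩; omega
      rw [himg, Finset.sum_image (by intro x _ y _ h; simpa using h), Finset.sum_mul]
      apply Finset.sum_le_sum
      intro r hr
      have hr' := Finset.mem_range.mp hr
      have h1 := Phi_even ha (2 * n - 2 * (r + 2)) (by omega) r i
      have e : 2 * n - 2 * (r + 2) + 2 * (r + 2) = 2 * n := by omega
      rw [e] at h1
      exact h1
    rcases (show n = 3 ∨ 4 ≤ n by omega) with h | h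
    · subst h
      have h1 := Phi2_34 ha 4 (by omega) i
      have hempty : i / 2 - 1 = 0 := by omega
      rw [hempty, Finset.range_zero, Finset.sum_empty, zero_mul] at hrest
      norm_num at h1 hrest ⊢
      norm_num at hA
      have hA' : (0 : ℚ) ≤ (a i 6 : ℚ) := by exact_mod_cast hA
      linarith
    · have h1 := Phi2_710 ha (2 * n - 2 * 1) (by omega) i
      have e : 2 * n - 2 * 1 + 2 = 2 * n := by omega
      rw [e] at h1
      have hg := geom_bound (i / 2 - 1)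
      have hg' := mul_le_mul_of_nonneg_right hg hA
      have e2 : 2 * 1 = 2 := by norm_num
      rw [e2] at *
      linarith
  have := hQ
  exact_mod_cast this

theorem a2_pos {a : ℕ → ℕ → ℤ} (ha : IsA a) : ∀ m, 4 ≤ m → 1 ≤ a 2 m := by
  intro m hm
  induction m, hm using Nat.le_induction with
  | base =>
    have h6 := ha.hrec 2 3 (by omega) (by omega)
    have h7 := ha.hrec 1 2 (by omega) (by omega)
    have h8 := ha.hz 2 3 (by omega)
    have h9 := ha.h0 2 (by omega)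
    have h10 := ha.h12
    norm_num at h6 h7 h8 h9 h10
    rw [h6, h7, h8, h9, h10]; norm_num
  | succ m hm ih =>
    have h1 := ha.hrec 2 m (by omega) (by omega)
    have h2 := nonneg ha m (by omega) 1
    rw [h1]
    have : (0 : ℤ) ≤ (m : ℤ) - 2 * ((2 : ℕ) : ℤ) + 2 := by push_cast; omega
    have h3 : (0 : ℤ) ≤ ((m : ℤ) - 2 * ((2 : ℕ) : ℤ) + 2) * a (2 - 1) m := mul_nonneg this h2
    push_cast at *
    linarith

theorem abs_b_le {a b : ℕ → ℕ → ℤ} (ha : IsA a)
    (hb2 : ∀ n : ℕ, 2 ≤ n → b 2 n = 1)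
    (hb0 : ∀ i n : ℕ, ¬ (2 ≤ i ∧ i ≤ n) → b i n = 0)
    (hb : ∀ i n : ℕ, 3 ≤ i → i ≤ n →
        b i n = ∑ k ∈ Finset.range (i + 1),
          ((Nat.choose (2 * n - 2 * i + k) k : ℕ) : ℤ) *
            ∑ r ∈ Finset.Icc 1 (i / 2),
              (-1 : ℤ) ^ (r - 1) * ((Nat.choose (i - k) (i - 2 * r) : ℕ) : ℤ) * b (i - k) (n - r)) :
    ∀ n i : ℕ, 2 ≤ i → i ≤ n → |b i n| ≤ a i (2 * n) := by
  intro n
  induction n using Nat.strong_induction_on with
  | _ n ih =>
    intro i hi hin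
    rcases (show i = 2 ∨ 3 ≤ i by omega) with h | h
    · subst h
      rw [hb2 n hin]
      simpa using a2_pos ha (2 * n) (by omega)
    · rw [hb i n h hin]
      have key : ∀ j m : ℕ, m < n → 1 ≤ m → |b j m| ≤ a j (2 * m) := by
        intro j m hm hm1
        by_cases hjm : 2 ≤ j ∧ j ≤ m
        · exact ih m hm j hjm.1 hjm.2
        · rw [hb0 j m hjm, abs_zero]
          exact nonneg ha _ (by omega) j
      calc |∑ k ∈ Finset.range (i + 1),
          ((Nat.choose (2 * n - 2 * i + k) k : ℕ) : ℤ) *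
            ∑ r ∈ Finset.Icc 1 (i / 2),
              (-1 : ℤ) ^ (r - 1) * ((Nat.choose (i - k) (i - 2 * r) : ℕ) : ℤ) * b (i - k) (n - r)|
          ≤ ∑ k ∈ Finset.range (i + 1),
          ((Nat.choose (2 * n - 2 * i + k) k : ℕ) : ℤ) *
            ∑ r ∈ Finset.Icc 1 (i / 2),
              ((Nat.choose (i - k) (i - 2 * r) : ℕ) : ℤ) * a (i - k) (2 * (n - r)) := by
            refine (Finset.abs_sum_le_sum_abs _ _).trans ?_
            apply Finset.sum_le_sum
            intro k hk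
            rw [abs_mul, abs_of_nonneg (show (0 : ℤ) ≤ ((Nat.choose (2 * n - 2 * i + k) k : ℕ) : ℤ) by positivity)]
            apply mul_le_mul_of_nonneg_left _ (by positivity)
            refine (Finset.abs_sum_le_sum_abs _ _).trans ?_
            apply Finset.sum_le_sum
            intro r hr
            have hr' := Finset.mem_Icc.mp hr
            rw [abs_mul, abs_mul, abs_pow, abs_neg, abs_one, one_pow, one_mul,
              abs_of_nonneg (show (0 : ℤ) ≤ ((Nat.choose (i - k) (i - 2 * r) : ℕ) : ℤ) by positivity)]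
            apply mul_le_mul_of_nonneg_left _ (by positivity)
            exact key _ _ (by omega) (by omega)
        _ = ∑ r ∈ Finset.Icc 1 (i / 2), Phi a (2 * n - 2 * r) (2 * r) i := by
            simp_rw [Finset.mul_sum]
            rw [Finset.sum_comm]
            apply Finset.sum_congr rfl
            intro r hr
            have hr' := Finset.mem_Icc.mp hr
            unfold Phi W
            rw [if_pos (by omega)]
            rw [← Finset.sum_flip]
            apply Finset.sum_congr rfl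
            intro j hj
            have hj' := Finset.mem_range.mp hj
            have e1 : i - (i - j) = j := by omega
            have e2 : 2 * n - 2 * i + (i - j) = 2 * n - 2 * r - (i - 2 * r) - j := by omega
            have e3 : 2 * (n - r) = 2 * n - 2 * r := by omega
            rw [e1, e2, e3]
            ring
        _ ≤ a i (2 * n) := main_bound ha n i (by omega) hi hin

end Pool.Agent.Helper40.Simsun
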